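import Pool.Agent.Y223.G.Stm13

/-! W6-ECDL: the data at the wild primes. -/

set_option autoImplicit false

namespace Pool.Agent.Y849.H

open IsLocalRing Pool.Agent.W418.LU2 Pool.Agent.Y223.G Polynomial

theorem lin_uniq {O K : Type} [CommRing O] [Field K] [Algebra O K] {x : K}
    (hx : Transcendental O x) {a b a' b' : O}
    (h : algebraMap O K a * x + algebraMap O K b = algebraMap O K a' * x + algebraMap O K b') :
    a = a' ∧ b = b' := by
  have h1 : aeval x (C (a - a') * X + C (b - b') : O[X]) = 0 := by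
    rw [map_add, map_mul, aeval_C, aeval_X, aeval_C, map_sub, map_sub]
    linear_combination h
  have h2 : (C (a - a') * X + C (b - b') : O[X]) = 0 := by
    by_contra hne
    exact hx ⟨_, hne, h1⟩
  have h3 := congrArg (fun p : O[X] => p.coeff 1) h2
  have h4 := congrArg (fun p : O[X] => p.coeff 0) h2
  have e3 : (C (a - a') * X + C (b - b') : O[X]).coeff 1 = a - a' := by
    rw [coeff_add, coeff_C_mul_X, coeff_C, if_pos rfl, if_neg one_ne_zero, add_zero]
  have e4 : (C (a - a') * X + C (b - b') : O[X]).coeff 0 = b - b' := by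
    rw [coeff_add, coeff_C_mul_X, coeff_C, if_neg zero_ne_one, if_pos rfl, zero_add]
  refine ⟨sub_eq_zero.1 ?_, sub_eq_zero.1 ?_⟩
  · rw [← e3]
    exact h3
  · rw [← e4]
    exact h4

section coc
variable {k O K G : Type} [CommRing k] [CommRing O] [Field K] [Group G] [Algebra k O]
  [Algebra O K] [Algebra k K] {ρ : G →* (K ≃ₐ[k] K)} {T : G →* (O ≃ₐ[k] O)}

theorem coc (com : ∀ g o, ρ g (algebraMap O K o) = algebraMap O K (T g o)) {x : K}
    (tr : Transcendental O x) {U R : G → O}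
    (hUR : ∀ g, ρ g x = algebraMap O K (U g) * x + algebraMap O K (R g)) (g h : G) :
    R (g * h) = T g (U h) * R g + T g (R h) := by
  have h1 : ρ (g * h) x = algebraMap O K (T g (U h) * U g) * x +
      algebraMap O K (T g (U h) * R g + T g (R h)) := by
    rw [map_mul, AlgEquiv.mul_apply, hUR h, map_add, map_mul (ρ g), com, com, hUR g, map_mul,
      map_add, map_mul]
    ring
  exact (lin_uniq tr ((hUR (g * h)).symm.trans h1)).2

theorem one (com : ∀ g o, ρ g (algebraMap O K o) = algebraMap O K (T g o)) {x : K}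
    (tr : Transcendental O x) {U R : G → O}
    (hUR : ∀ g, ρ g x = algebraMap O K (U g) * x + algebraMap O K (R g)) : R 1 = 0 := by
  have h1 : ρ 1 x = algebraMap O K 1 * x + algebraMap O K 0 := by
    rw [map_one, AlgEquiv.one_apply, map_one, map_zero, one_mul, add_zero]
  exact (lin_uniq tr ((hUR 1).symm.trans h1)).2

theorem step (com : ∀ g o, ρ g (algebraMap O K o) = algebraMap O K (T g o)) {x : K}
    (tr : Transcendental O x) {U R : G → O}
    (hUR : ∀ g, ρ g x = algebraMap O K (U g) * x + algebraMap O K (R g))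
    (hU : ∀ g, IsUnit (U g)) {𝔓 𝔓' : Ideal O} {g τ τ' : G} (hg : ∀ o, o ∈ 𝔓 ↔ T g o ∈ 𝔓')
    (hτ : ∀ o, T τ o - o ∈ 𝔓) (hUτ : U τ - 1 ∈ 𝔓) (hRτ : R τ ∈ 𝔓) {n : ℕ}
    (hn : τ' = (g * τ * g⁻¹) ^ n) : R τ' ∈ 𝔓' := by
  obtain ⟨c, hc⟩ : ∃ c, c = g * τ * g⁻¹ := ⟨_, rfl⟩
  rw [← hc] at hn
  have hTc : ∀ o, T c o - o ∈ 𝔓' := by
    intro o
    have e1 : T g (T g⁻¹ o) = o := by
      rw [← AlgEquiv.mul_apply, ← map_mul, mul_inv_cancel, map_one, AlgEquiv.one_apply]
    have e2 : T c o - o = T g (T τ (T g⁻¹ o) - T g⁻¹ o) := by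
      rw [map_sub, e1, hc, map_mul, map_mul, AlgEquiv.mul_apply, AlgEquiv.mul_apply]
    rw [e2]
    exact (hg _).1 (hτ _)
  have hcg : c * g = g * τ := by
    rw [hc, mul_assoc, inv_mul_cancel, mul_one]
  have hRc : R c ∈ 𝔓' := by
    have e1 := coc com tr hUR c g
    have e2 := coc com tr hUR g τ
    rw [hcg, e2] at e1
    have e3 : T c (U g) * R c = T g (U τ - 1) * R g + T g (R τ) - (T c (R g) - R g) := by
      rw [map_sub, map_one]
      linear_combination -e1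
    have e4 : T c (U g) * R c ∈ 𝔓' := by
      rw [e3]
      exact sub_mem (add_mem (𝔓'.mul_mem_right _ ((hg _).1 hUτ)) ((hg _).1 hRτ)) (hTc _)
    exact (Ideal.unit_mul_mem_iff_mem _ ((hU g).map (T c))).1 e4
  rw [hn]
  clear hn
  induction n with
  | zero =>
    rw [pow_zero, one com tr hUR]
    exact zero_mem _
  | succ n ih =>
    rw [pow_succ', coc com tr hUR]
    refine add_mem (𝔓'.mul_mem_left _ hRc) ?_
    have e1 : T c (R (c ^ n)) = (T c (R (c ^ n)) - R (c ^ n)) + R (c ^ n) := by ring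
    rw [e1]
    exact add_mem (hTc _) ih

end coc

theorem pow_triv {k O G : Type} [CommRing k] [CommRing O] [Group G] [Algebra k O]
    {T : G →* (O ≃ₐ[k] O)} {𝔓 : Ideal O} {g : G} (h1 : ∀ x, T g x - x ∈ 𝔓)
    (h2 : ∀ x ∈ 𝔓, T g x - x ∈ 𝔓 ^ 2) (n : ℕ) : ∀ x ∈ 𝔓, T (g ^ n) x - x ∈ 𝔓 ^ 2 := by
  induction n with
  | zero =>
    intro x _
    rw [pow_zero, map_one, AlgEquiv.one_apply, sub_self]
    exact zero_mem _
  | succ n ih =>
    intro x hx
    have hx' : T g x ∈ 𝔓 := by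
      have e : T g x = (T g x - x) + x := by ring
      rw [e]
      exact add_mem (h1 x) hx
    rw [pow_succ g, map_mul, AlgEquiv.mul_apply]
    have e : T (g ^ n) (T g x) - x = (T (g ^ n) (T g x) - T g x) + (T g x - x) := by ring
    rw [e]
    exact add_mem (ih _ hx') (h2 x hx)

theorem exists_pow {G : Type} [Group G] {τ g : G} {p : ℕ} (hp : p.Prime) (hτ : τ ^ p = 1)
    (hg : g ∈ Subgroup.zpowers τ) (h1 : g ≠ 1) : ∃ n : ℕ, τ = g ^ n := by
  obtain ⟨m, rfl⟩ := Subgroup.mem_zpowers_iff.1 hg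
  have hpm : ¬ (p : ℤ) ∣ m := by
    rintro ⟨c, rfl⟩
    apply h1
    rw [zpow_mul, zpow_natCast, hτ, one_zpow]
  have hco : IsCoprime m (p : ℤ) := by
    rw [isCoprime_comm]
    exact ((Nat.prime_iff_prime_int.1 hp).coprime_iff_not_dvd).2 hpm
  obtain ⟨a, b, hab⟩ := hco
  have hp0 : (0 : ℤ) < p := by exact_mod_cast hp.pos
  have hgp : (τ ^ m) ^ (p : ℤ) = 1 := by
    rw [← zpow_mul, mul_comm, zpow_mul, zpow_natCast, hτ, one_zpow]
  refine ⟨(a % p).toNat, ?_⟩
  have h2 : (τ ^ m) ^ a = τ := by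
    have e1 : τ ^ (a * m + b * p) = τ := by rw [hab, zpow_one]
    rw [zpow_add, zpow_mul, mul_comm b, zpow_mul τ (p : ℤ), zpow_natCast τ p, hτ, one_zpow,
      mul_one, ← zpow_mul, mul_comm, zpow_mul] at e1
    exact e1
  have h3 : (τ ^ m) ^ (a % (p : ℤ)) = τ := by
    have e2 : a % (p : ℤ) = a - p * (a / p) := by
      rw [Int.emod_def]
    rw [e2, zpow_sub, zpow_mul, hgp, one_zpow, inv_one, mul_one, h2]
  have h4 : ((a % (p : ℤ)).toNat : ℤ) = a % p := Int.toNat_of_nonneg (Int.emod_nonneg a hp0.ne')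
  rw [← zpow_natCast, h4, h3]

theorem t_ECDL (hAR : S_ECAR) : S_ECDL := by
  intro k O K G Ω _ _ _ _ _ _ _ _ _ _ ρ T N 𝔔 p l τ π hL z Wc hE hw h3
  choose a b ha hb C hC using hE.ch
  -- the ramification is wild
  have hl : ∀ i, 1 ≤ l i := by
    intro i
    obtain ⟨g, hg1, hg2, hg3⟩ := hw i
    obtain ⟨hWS, hτp, hzp⟩ := hL.ty i
    have hmx := hL.mx i
    have hpr : (𝔔 i).IsPrime := hmx.isPrime
    have hg : g ∈ Subgroup.zpowers (τ i) := by
      refine hzp g hg2 fun w hwπ => ?_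
      have h4 : (w - 1) * π ∈ 𝔔 i ^ 2 := by
        have e : (w - 1) * π = T g π - π := by
          rw [hwπ]
          ring
        rw [e]
        exact hg3 π (hL.pq i).1
      rcases Ideal.IsPrime.mul_mem_pow (𝔔 i) h4 with h5 | h5
      · exact h5
      · exact absurd h5 (hL.pq i).2
    obtain ⟨n, hn⟩ := exists_pow hWS.pp hτp hg hg1
    by_contra hl0
    have hl0' : l i = 0 := by omega
    obtain ⟨π', hπ', hun⟩ := hWS.un
    rw [hl0', zero_add] at hun
    apply hun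
    rw [hn]
    exact pow_triv hg2 hg3 n π' hπ'
  have hp3 : ∀ i, p i = 3 := by
    intro i
    obtain ⟨hWS, -, -⟩ := hL.ty i
    have hmx := hL.mx i
    have h1 : 1 ≤ (p i - 1) * l i := by
      have := hWS.pp.two_le
      exact Nat.mul_pos (by omega) (hl i)
    have h2 : ((p i : ℕ) : O) ∈ 𝔔 i := Ideal.pow_le_self (by omega) hWS.pl
    by_contra hne
    have hco : Nat.Coprime (p i) 3 := (Nat.coprime_primes hWS.pp Nat.prime_three).2 hne
    have hco' : IsCoprime ((p i : ℕ) : ℤ) ((3 : ℕ) : ℤ) := Nat.isCoprime_iff_coprime.2 hco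
    obtain ⟨u, v, huv⟩ := hco'
    apply hmx.ne_top
    rw [Ideal.eq_top_iff_one]
    have e : (1 : O) = (u : O) * ((p i : ℕ) : O) + (v : O) * (3 : O) := by
      have := congrArg (Int.cast : ℤ → O) huv
      push_cast at this
      exact this.symm
    rw [e]
    exact add_mem (Ideal.mul_mem_left _ _ h2) (Ideal.mul_mem_left _ _ (h3 i))
  have h32 : ∀ i, (3 : O) ∈ 𝔔 i ^ (2 * l i) := by
    intro i
    have h1 := (hL.ty i).1.pl
    rw [hp3 i] at h1
    simpa using h1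
  -- the arithmetic of the changes of variables
  have har : ∀ i ω, ((C ω (τ i)).u : O) - 1 ∈ 𝔔 i ^ l i ∧ (C ω (τ i)).s ∈ 𝔔 i ^ l i ∧
      ((C ω (τ i)).r ∈ 𝔔 i → (C ω (τ i)).r ∈ 𝔔 i ^ l i ∧ (C ω (τ i)).t ∈ 𝔔 i ^ l i) := by
    intro i ω
    have hmx := hL.mx i
    refine hAR O (𝔔 i) hmx (hL.ne i) (T (τ i) : O ≃+* O) (l i) (hl i)
      (fun o => (hL.ty i).1.dv o) (h32 i) (Wc ω) (fun h => ?_) (C ω (τ i)) (hC ω (τ i)).2.2.1
      ⟨a ω, b ω, ha ω, hb ω, (hC ω (τ i)).2.2.2⟩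
    exact hmx.ne_top (Ideal.eq_top_of_isUnit_mem _ h (hE.du ω))
  let B : N → Set Ω := fun i => {ω | (C ω (τ i)).r ∉ 𝔔 i}
  have key : ∀ g i j, (∀ o, o ∈ 𝔔 i ↔ T g o ∈ 𝔔 j) → ∀ ω, (C ω (τ i)).r ∈ 𝔔 i →
      (C ω (τ j)).r ∈ 𝔔 j := by
    intro g i j hg ω hr
    obtain ⟨j', hj1, -, -, -, n, hn⟩ := hL.cj g i
    have hjj : j = j' := by
      apply hL.dj
      ext o
      have e1 : T g (T g⁻¹ o) = o := by
        rw [← AlgEquiv.mul_apply, ← map_mul, mul_inv_cancel, map_one, AlgEquiv.one_apply]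
      have h1 := hg (T g⁻¹ o)
      have h2 := hj1 (T g⁻¹ o)
      rw [e1] at h1 h2
      exact h1.symm.trans h2
    subst hjj
    refine step (U := fun g => ((C ω g).u : O) ^ 2) (R := fun g => (C ω g).r) hL.com (hE.ec ω).tr
      (fun g => (hC ω g).1) (fun g => (C ω g).u.isUnit.pow 2) hg (fun o => ?_) ?_ hr hn
    · exact Ideal.pow_le_self (by omega) ((hL.ty i).1.dv o)
    · have h4 : ((C ω (τ i)).u : O) - 1 ∈ 𝔔 i :=
        Ideal.pow_le_self (by have := hl i; omega) (har i ω).1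
      have e : ((C ω (τ i)).u : O) ^ 2 - 1 = (((C ω (τ i)).u : O) + 1) *
          (((C ω (τ i)).u : O) - 1) := by ring
      show ((C ω (τ i)).u : O) ^ 2 - 1 ∈ 𝔔 i
      rw [e]
      exact Ideal.mul_mem_left _ _ h4
  refine ⟨B, hl, fun i => ?_, fun g i j hg => ?_⟩
  · refine ⟨hE.ec, hL.com (τ i), (hL.ty i).1.dv, fun ω => ?_⟩
    refine ⟨(C ω (τ i)).u, (C ω (τ i)).r, (C ω (τ i)).s, (C ω (τ i)).t, (hC ω (τ i)).1,
      (hC ω (τ i)).2.1, (har i ω).1, (har i ω).2.1, fun h => h, fun h => ?_⟩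
    exact (har i ω).2.2 (not_not.1 h)
  · have hg' : ∀ o, o ∈ 𝔔 j ↔ T g⁻¹ o ∈ 𝔔 i := by
      intro o
      have e1 : T g (T g⁻¹ o) = o := by
        rw [← AlgEquiv.mul_apply, ← map_mul, mul_inv_cancel, map_one, AlgEquiv.one_apply]
      have h1 := hg (T g⁻¹ o)
      rw [e1] at h1
      exact h1.symm
    refine ⟨?_, ?_⟩
    · ext ω
      show (C ω (τ i)).r ∉ 𝔔 i ↔ (C ω (τ j)).r ∉ 𝔔 j
      exact not_congr ⟨key g i j hg ω, key g⁻¹ j i hg' ω⟩
    · obtain ⟨j', hj1, -, hlj, -⟩ := hL.cj g i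
      have hjj : j = j' := by
        apply hL.dj
        ext o
        have e1 : T g (T g⁻¹ o) = o := by
          rw [← AlgEquiv.mul_apply, ← map_mul, mul_inv_cancel, map_one, AlgEquiv.one_apply]
        have h1 := hg (T g⁻¹ o)
        have h2 := hj1 (T g⁻¹ o)
        rw [e1] at h1 h2
        exact h1.symm.trans h2
      subst hjj
      exact hlj.symm

end Pool.Agent.Y849.H
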